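import Mathlib

set_option autoImplicit false

open Polynomial Filter Topology

namespace Pool.Agent.Results.MP_f0d684_an.SmallAlpha

/-- The closed sector `S(θ)` around the non-negative real axis. -/
def sector (θ : ℝ) : Set ℂ := {z | |Complex.arg z| ≤ θ ∨ z = 0}

/-- The diagonal linear operator with `z^k ↦ γ k z^k`. -/
noncomputable def diagOp (γ : ℕ → ℝ) : ℝ[X] →ₗ[ℝ] ℝ[X] :=
  Polynomial.lsum fun k => γ k • Polynomial.monomial k

/-- Zero-sector reducing operators. -/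
def IsZeroSectorReducing (T : ℝ[X] →ₗ[ℝ] ℝ[X]) : Prop :=
  ∀ θ : ℝ, 0 < θ → θ < Real.pi / 2 → ∃ γ : ℝ, 0 ≤ γ ∧ γ < θ ∧
    ∀ f : ℝ[X], f ≠ 0 → (∀ z ∈ (f.map (algebraMap ℝ ℂ)).roots, z ∈ sector θ) →
      ∀ z ∈ ((T f).map (algebraMap ℝ ℂ)).roots, z ∈ sector γ

/-- The operator `T_{α,p}` with `γ_k = exp (-α k^p)`. -/
noncomputable def T (α p : ℝ) : ℝ[X] →ₗ[ℝ] ℝ[X] :=
  diagOp fun k => Real.exp (-α * (k : ℝ) ^ p)

theorem diagOp_monomial (γ : ℕ → ℝ) (k : ℕ) (a : ℝ) :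
    diagOp γ (monomial k a) = monomial k (γ k * a) := by
  unfold diagOp
  simp [Polynomial.lsum_apply, smul_monomial]

theorem diagOp_cube (γ : ℕ → ℝ) :
    diagOp γ ((X - 1) ^ 3) =
      monomial 3 (γ 3) + monomial 2 (-(3 * γ 2)) + monomial 1 (3 * γ 1) + monomial 0 (-(γ 0)) := by
  have h : ((X - 1) ^ 3 : ℝ[X]) =
      monomial 3 1 + monomial 2 (-3) + monomial 1 3 + monomial 0 (-1) := by
    have h3 : (monomial 3 (1 : ℝ) : ℝ[X]) = X ^ 3 := by
      rw [← C_mul_X_pow_eq_monomial]; simp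
    have h2 : (monomial 2 (-3 : ℝ) : ℝ[X]) = C (-3) * X ^ 2 := by
      rw [← C_mul_X_pow_eq_monomial]
    have h1 : (monomial 1 (3 : ℝ) : ℝ[X]) = C 3 * X := by
      rw [← C_mul_X_pow_eq_monomial]; simp
    have h0 : (monomial 0 (-1 : ℝ) : ℝ[X]) = C (-1) := by
      rw [← C_mul_X_pow_eq_monomial]; simp
    rw [h3, h2, h1, h0]
    have e3 : (C (-3 : ℝ) : ℝ[X]) = -3 := by
      rw [C_neg]; rfl
    have e3' : (C (3 : ℝ) : ℝ[X]) = 3 := rfl
    have e1 : (C (-1 : ℝ) : ℝ[X]) = -1 := by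
      rw [C_neg, C_1]
    rw [e3, e3', e1]
    ring
  rw [h, map_add, map_add, map_add, diagOp_monomial, diagOp_monomial, diagOp_monomial,
    diagOp_monomial]
  congr 1
  · congr 1
    · congr 1
      · rw [mul_one]
      · congr 1; ring
    · congr 1; ring
  · congr 1; ring

/-- The cubic inequality satisfied by the shifted coefficients when all zeros are real. -/
theorem cubic_ineq {t₁ t₂ t₃ : ℝ} :
    27 * (t₁ * t₂ * t₃) ^ 2 ≤
      ((t₁ + t₂ + t₃) ^ 2 - 2 * (t₁ * t₂ + t₁ * t₃ + t₂ * t₃)) ^ 3 := by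
  have key : ∀ a b c : ℝ, 0 ≤ a → 0 ≤ b → 0 ≤ c → 27 * (a * b * c) ≤ (a + b + c) ^ 3 := by
    intro a b c ha hb hc
    nlinarith [mul_nonneg ha (sq_nonneg (b - c)), mul_nonneg hb (sq_nonneg (a - c)),
      mul_nonneg hc (sq_nonneg (a - b)),
      mul_nonneg ha (sq_nonneg (a - b)), mul_nonneg ha (sq_nonneg (a - c)),
      mul_nonneg hb (sq_nonneg (b - a)), mul_nonneg hb (sq_nonneg (b - c)),
      mul_nonneg hc (sq_nonneg (c - a)), mul_nonneg hc (sq_nonneg (c - b))]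
  have := key (t₁ ^ 2) (t₂ ^ 2) (t₃ ^ 2) (sq_nonneg _) (sq_nonneg _) (sq_nonneg _)
  calc 27 * (t₁ * t₂ * t₃) ^ 2 = 27 * (t₁ ^ 2 * t₂ ^ 2 * t₃ ^ 2) := by ring
    _ ≤ (t₁ ^ 2 + t₂ ^ 2 + t₃ ^ 2) ^ 3 := this
    _ = _ := by ring

/-- If the operator is zero-sector reducing then the zeros of `T (z-1)^3` are real, which gives an
inequality between the `γ`s. -/
theorem ineq_of_reducing {γ : ℕ → ℝ} (h0 : γ 0 = 1) (h3 : 0 < γ 3)
    (h : IsZeroSectorReducing (diagOp γ)) :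
    27 * (-(γ 3 - 3 * γ 2 + 3 * γ 1 - 1) / γ 3) ^ 2 ≤
      ((3 * (γ 2 - γ 3) / γ 3) ^ 2 - 2 * (3 * (γ 3 - 2 * γ 2 + γ 1) / γ 3)) ^ 3 := by
  set F : ℝ[X] := diagOp γ ((X - 1) ^ 3) with hF
  have hFeq : F = monomial 3 (γ 3) + monomial 2 (-(3 * γ 2)) + monomial 1 (3 * γ 1) +
      monomial 0 (-(γ 0)) := diagOp_cube γ
  have hFC : F = C (γ 3) * X ^ 3 + C (-(3 * γ 2)) * X ^ 2 + C (3 * γ 1) * X + C (-(γ 0)) := by
    rw [hFeq]
    simp only [← C_mul_X_pow_eq_monomial, pow_zero, mul_one, pow_one]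
  have hdeg : F.natDegree = 3 := by
    rw [hFC]
    exact natDegree_cubic h3.ne'
  have hlead : F.leadingCoeff = γ 3 := by
    rw [hFC]
    exact leadingCoeff_cubic h3.ne'
  -- zeros are real and nonnegative
  have hreal : ∀ z ∈ (F.map (algebraMap ℝ ℂ)).roots, ∃ r : ℝ, z = r := by
    intro z hz
    have hf : ((X - 1) ^ 3 : ℝ[X]) ≠ 0 := by
      apply pow_ne_zero
      have := X_sub_C_ne_zero (1 : ℝ)
      simpa using this
    have hall : ∀ θ : ℝ, 0 < θ → θ < Real.pi / 2 → z = 0 ∨ |Complex.arg z| < θ := by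
      intro θ hθ hθ'
      obtain ⟨g, -, hg1, hg2⟩ := h θ hθ hθ'
      have h1 : ∀ w ∈ (((X - 1) ^ 3 : ℝ[X]).map (algebraMap ℝ ℂ)).roots, w ∈ sector θ := by
        intro w hw
        have hw' := (mem_roots'.mp hw).2
        rw [IsRoot.def] at hw'
        simp at hw'
        have : w = 1 := by linear_combination hw'
        rw [this]
        left
        simp [hθ.le]
      rcases hg2 _ hf h1 z hz with h2 | h2
      · right; exact lt_of_le_of_lt h2 hg1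
      · left; exact h2
    by_cases hz0 : z = 0
    · exact ⟨0, by simp [hz0]⟩
    · have harg : Complex.arg z = 0 := by
        by_contra hne
        have hpos : 0 < |Complex.arg z| := abs_pos.mpr hne
        have h1 := hall (min (|Complex.arg z|) (Real.pi / 4)) (lt_min hpos (by positivity))
          (lt_of_le_of_lt (min_le_right _ _) (by linarith [Real.pi_pos]))
        rcases h1 with h1 | h1
        · exact hz0 h1
        · exact absurd h1 (not_lt.mpr (min_le_left _ _))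
      refine ⟨‖z‖, ?_⟩
      have := Complex.norm_mul_exp_arg_mul_I z
      rw [harg] at this
      simpa using this.symm
  -- factor
  set G : ℂ[X] := F.map (algebraMap ℝ ℂ) with hG
  have hGdeg : G.natDegree = 3 := by
    rw [hG, natDegree_map, hdeg]
  have hGlead : G.leadingCoeff = (γ 3 : ℂ) := by
    rw [hG, leadingCoeff_map, hlead]; rfl
  have hsplit := (IsAlgClosed.splits G)
  have hcard : G.roots.card = 3 := by
    rw [← hGdeg]
    exact hsplit.natDegree_eq_card_roots.symm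
  have hprod := hsplit.eq_prod_roots
  obtain ⟨a, b, c, habc⟩ := Multiset.card_eq_three.mp hcard
  have ha := hreal a (by rw [habc]; simp)
  have hb := hreal b (by rw [habc]; simp)
  have hc := hreal c (by rw [habc]; simp)
  obtain ⟨a', rfl⟩ := ha
  obtain ⟨b', rfl⟩ := hb
  obtain ⟨c', rfl⟩ := hc
  have hid : ∀ x : ℝ, F.eval x = γ 3 * ((x - a') * (x - b') * (x - c')) := by
    intro x
    have h1 : G.eval (x : ℂ) = ((F.eval x : ℝ) : ℂ) := by
      rw [hG, eval_map_algebraMap, aeval_def]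
      exact (hom_eval₂ F (RingHom.id ℝ) (algebraMap ℝ ℂ) x |>.symm)
    rw [hprod, hGlead, habc] at h1
    simp at h1
    have h2 : ((γ 3 * ((x - a') * (x - b') * (x - c')) : ℝ) : ℂ) = ((F.eval x : ℝ) : ℂ) := by
      push_cast
      rw [← h1]; ring
    exact (Complex.ofReal_injective h2).symm
  have hev : ∀ x : ℝ, F.eval x = γ 3 * x ^ 3 - 3 * γ 2 * x ^ 2 + 3 * γ 1 * x - 1 := by
    intro x
    rw [hFC, h0]
    simp
    ring
  have e0 : γ 3 * ((1 - a') * (1 - b') * (1 - c')) = γ 3 - 3 * γ 2 + 3 * γ 1 - 1 := by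
    rw [← hid, hev]; ring
  have e1 : γ 3 * ((2 - a') * (2 - b') * (2 - c')) = γ 3 * 8 - 12 * γ 2 + 6 * γ 1 - 1 := by
    rw [← hid, hev]; ring
  have e2 : γ 3 * ((0 - a') * (0 - b') * (0 - c')) = - 1 := by
    rw [← hid, hev]; ring
  have hne := h3.ne'
  have f1 : 3 * (γ 2 - γ 3) / γ 3 = (a' - 1) + (b' - 1) + (c' - 1) := by
    field_simp
    linear_combination (1 / 2 : ℝ) * e1 + (1 / 2 : ℝ) * e2 - e0
  have f2 : 3 * (γ 3 - 2 * γ 2 + γ 1) / γ 3 =
      (a' - 1) * (b' - 1) + (a' - 1) * (c' - 1) + (b' - 1) * (c' - 1) := by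
    field_simp
    linear_combination - (1 / 2 : ℝ) * e1 + (1 / 2 : ℝ) * e2
  have f3 : -(γ 3 - 3 * γ 2 + 3 * γ 1 - 1) / γ 3 = (a' - 1) * (b' - 1) * (c' - 1) := by
    rw [← e0]
    field_simp
    ring
  rw [f1, f2, f3]
  exact cubic_ineq

/-- `3^p - 3·2^p + 3 > 0` for `p > 2`. -/
theorem third_difference_pos {p : ℝ} (hp : 2 < p) :
    0 < (3 : ℝ) ^ p - 3 * (2 : ℝ) ^ p + 3 := by
  have hd : ∀ x : ℝ, HasDerivAt (fun x : ℝ => (3 : ℝ) ^ x - 3 * (2 : ℝ) ^ x + 3)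
      ((3 : ℝ) ^ x * Real.log 3 - 3 * ((2 : ℝ) ^ x * Real.log 2)) x := by
    intro x
    have h3 := (Real.hasStrictDerivAt_const_rpow (by norm_num : (0 : ℝ) < 3) x).hasDerivAt
    have h2 := (Real.hasStrictDerivAt_const_rpow (by norm_num : (0 : ℝ) < 2) x).hasDerivAt
    exact (h3.sub (h2.const_mul 3)).add_const 3
  have hmono : StrictMonoOn (fun x : ℝ => (3 : ℝ) ^ x - 3 * (2 : ℝ) ^ x + 3) (Set.Ici 2) := by
    apply strictMonoOn_of_deriv_pos (convex_Ici 2)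
    · exact fun x _ => (hd x).continuousAt.continuousWithinAt
    · intro x hx
      rw [interior_Ici] at hx
      rw [(hd x).deriv]
      have hx2 : (2 : ℝ) < x := hx
      have h1 : (9 / 4 : ℝ) * (2 : ℝ) ^ x ≤ (3 : ℝ) ^ x := by
        have h4 : (3 / 2 : ℝ) ^ (2 : ℝ) ≤ (3 / 2 : ℝ) ^ x :=
          Real.rpow_le_rpow_of_exponent_le (by norm_num) hx2.le
        have h5 : (3 : ℝ) ^ x = (3 / 2 : ℝ) ^ x * (2 : ℝ) ^ x := by
          rw [← Real.mul_rpow (by norm_num) (by norm_num)]; norm_num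
        rw [h5]
        have h6 : (3 / 2 : ℝ) ^ (2 : ℝ) = 9 / 4 := by norm_num
        rw [h6] at h4
        have h7 : 0 < (2 : ℝ) ^ x := by positivity
        nlinarith
      have h8 : 0 < (2 : ℝ) ^ x := by positivity
      -- 9/4 log 3 > 3 log 2, i.e. 3 log 3 > 4 log 2, i.e. 27 > 16
      have h9 : 4 * Real.log 2 < 3 * Real.log 3 := by
        have e1 : 4 * Real.log 2 = Real.log 16 := by
          rw [show (16 : ℝ) = 2 ^ 4 by norm_num, Real.log_pow]; norm_num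
        have e2 : 3 * Real.log 3 = Real.log 27 := by
          rw [show (27 : ℝ) = 3 ^ 3 by norm_num, Real.log_pow]; norm_num
        rw [e1, e2]
        exact Real.log_lt_log (by norm_num) (by norm_num)
      have h10 : 0 < Real.log 3 := Real.log_pos (by norm_num)
      have h11 : (9 / 4 : ℝ) * (2 : ℝ) ^ x * Real.log 3 ≤ (3 : ℝ) ^ x * Real.log 3 :=
        mul_le_mul_of_nonneg_right h1 h10.le
      nlinarith
  have := hmono (Set.mem_Ici.mpr le_rfl) (Set.mem_Ici.mpr hp.le) hp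
  simp only at this
  norm_num at this
  linarith

theorem slope_exp (c : ℝ) :
    Tendsto (fun α : ℝ => (Real.exp (-α * c) - 1) / α) (𝓝[>] 0) (𝓝 (-c)) := by
  have h : HasDerivAt (fun α : ℝ => Real.exp (-α * c)) (-c) 0 := by
    have h1 : HasDerivAt (fun α : ℝ => -α * c) (-1 * c) 0 := ((hasDerivAt_id 0).neg).mul_const c
    have h2 := h1.exp
    simpa using h2
  have h2 := (hasDerivAt_iff_tendsto_slope.mp h).mono_left
    (nhdsWithin_mono 0 (fun x (hx : 0 < x) => ne_of_gt hx))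
  refine h2.congr fun α => ?_
  simp [slope_def_field]

theorem result : ∀ p : ℝ, 2 < p → ∃ α₀ : ℝ, 0 < α₀ ∧
    ∀ α : ℝ, 0 < α → α < α₀ → ¬ IsZeroSectorReducing (T α p) := by
  intro p hp
  -- the three coefficient functions
  let g : ℕ → ℝ → ℝ := fun k α => Real.exp (-α * (k : ℝ) ^ p)
  have hg : ∀ k, Tendsto (fun α => (g k α - 1) / α) (𝓝[>] 0) (𝓝 (-((k : ℝ) ^ p))) :=
    fun k => slope_exp _
  have hg1 : ∀ k, Tendsto (g k) (𝓝[>] 0) (𝓝 1) := by
    intro k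
    have : ContinuousAt (g k) 0 := by
      apply Continuous.continuousAt
      fun_prop
    have h := this.tendsto
    simp only [g, neg_zero, zero_mul, Real.exp_zero] at h
    exact h.mono_left nhdsWithin_le_nhds
  have hid : Tendsto (fun α : ℝ => α) (𝓝[>] 0) (𝓝 0) :=
    (continuous_id.tendsto (0 : ℝ)).mono_left nhdsWithin_le_nhds
  set D : ℝ := (3 : ℝ) ^ p - 3 * (2 : ℝ) ^ p + 3 with hD
  have hDpos : 0 < D := third_difference_pos hp
  -- e3 / α → D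
  have l3 : Tendsto (fun α : ℝ => (-((g 3 α - 1) / α) + 3 * ((g 2 α - 1) / α)
      - 3 * ((g 1 α - 1) / α)) / g 3 α) (𝓝[>] 0) (𝓝 (D / 1)) := by
    apply Tendsto.div _ (hg1 3) one_ne_zero
    have := (((hg 3).neg).add ((hg 2).const_mul 3)).sub ((hg 1).const_mul 3)
    convert this using 2
    rw [hD]
    push_cast
    rw [Real.one_rpow]
    ring
  -- the other quantity divided by α has a limit
  have l1 : Tendsto (fun α : ℝ => 3 * (((g 2 α - 1) / α) - ((g 3 α - 1) / α)) / g 3 α) (𝓝[>] 0)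
      (𝓝 (3 * (-(((2 : ℕ) : ℝ) ^ p) - -(((3 : ℕ) : ℝ) ^ p)) / 1)) := by
    apply Tendsto.div _ (hg1 3) one_ne_zero
    exact ((hg 2).sub (hg 3)).const_mul 3
  have l2 : Tendsto (fun α : ℝ => 3 * (((g 3 α - 1) / α) - 2 * ((g 2 α - 1) / α)
      + ((g 1 α - 1) / α)) / g 3 α) (𝓝[>] 0)
      (𝓝 (3 * (-(((3 : ℕ) : ℝ) ^ p) - 2 * (-(((2 : ℕ) : ℝ) ^ p)) + -(((1 : ℕ) : ℝ) ^ p)) / 1)) := by
    apply Tendsto.div _ (hg1 3) one_ne_zero
    exact (((hg 3).sub ((hg 2).const_mul 2)).add (hg 1)).const_mul 3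
  set A := 3 * (-(((2 : ℕ) : ℝ) ^ p) - -(((3 : ℕ) : ℝ) ^ p)) / 1 with hA
  set B := 3 * (-(((3 : ℕ) : ℝ) ^ p) - 2 * (-(((2 : ℕ) : ℝ) ^ p)) + -(((1 : ℕ) : ℝ) ^ p)) / 1
    with hB
  -- left minus right, divided by α²
  have lim : Tendsto (fun α : ℝ =>
      27 * ((-((g 3 α - 1) / α) + 3 * ((g 2 α - 1) / α) - 3 * ((g 1 α - 1) / α)) / g 3 α) ^ 2
      - α * (α * (3 * (((g 2 α - 1) / α) - ((g 3 α - 1) / α)) / g 3 α) ^ 2 -
        2 * (3 * (((g 3 α - 1) / α) - 2 * ((g 2 α - 1) / α) + ((g 1 α - 1) / α)) / g 3 α)) ^ 3)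
      (𝓝[>] 0) (𝓝 (27 * (D / 1) ^ 2 - 0 * (0 * A ^ 2 - 2 * B) ^ 3)) :=
    ((l3.pow 2).const_mul 27).sub (hid.mul (((hid.mul (l1.pow 2)).sub (l2.const_mul 2)).pow 3))
  have hev := lim.eventually (lt_mem_nhds (a := 0) (by
    simp only [zero_mul, sub_zero, div_one]; positivity))
  rw [eventually_nhdsWithin_iff] at hev
  obtain ⟨ε, hε, hball⟩ := Metric.eventually_nhds_iff.mp hev
  refine ⟨ε, hε, fun α hα hα' hred => ?_⟩
  have hpos := hball (y := α) (by simpa [abs_of_pos hα] using hα') hα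
  have h0 : (fun k : ℕ => Real.exp (-α * (k : ℝ) ^ p)) 0 = 1 := by
    simp [Real.zero_rpow (by linarith : p ≠ 0)]
  have h3 : 0 < (fun k : ℕ => Real.exp (-α * (k : ℝ) ^ p)) 3 := Real.exp_pos _
  have hineq := ineq_of_reducing h0 h3 hred
  have hg3 : 0 < g 3 α := Real.exp_pos _
  change 27 * (-(g 3 α - 3 * g 2 α + 3 * g 1 α - 1) / g 3 α) ^ 2 ≤
      ((3 * (g 2 α - g 3 α) / g 3 α) ^ 2 - 2 * (3 * (g 3 α - 2 * g 2 α + g 1 α) / g 3 α)) ^ 3
    at hineq
  have hfin : 27 * (-(g 3 α - 3 * g 2 α + 3 * g 1 α - 1) / g 3 α) ^ 2 -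
      ((3 * (g 2 α - g 3 α) / g 3 α) ^ 2 - 2 * (3 * (g 3 α - 2 * g 2 α + g 1 α) / g 3 α)) ^ 3
      = α ^ 2 * (27 * ((-((g 3 α - 1) / α) + 3 * ((g 2 α - 1) / α) -
        3 * ((g 1 α - 1) / α)) / g 3 α) ^ 2
      - α * (α * (3 * (((g 2 α - 1) / α) - ((g 3 α - 1) / α)) / g 3 α) ^ 2 -
        2 * (3 * (((g 3 α - 1) / α) - 2 * ((g 2 α - 1) / α) + ((g 1 α - 1) / α)) / g 3 α)) ^ 3)
      := by
    field_simp
    ring
  have : 0 < α ^ 2 * (27 * ((-((g 3 α - 1) / α) + 3 * ((g 2 α - 1) / α) -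
        3 * ((g 1 α - 1) / α)) / g 3 α) ^ 2
      - α * (α * (3 * (((g 2 α - 1) / α) - ((g 3 α - 1) / α)) / g 3 α) ^ 2 -
        2 * (3 * (((g 3 α - 1) / α) - 2 * ((g 2 α - 1) / α) + ((g 1 α - 1) / α)) / g 3 α)) ^ 3) :=
    mul_pos (by positivity) hpos
  rw [← hfin] at this
  linarith

end Pool.Agent.Results.MP_f0d684_an.SmallAlpha
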